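import Pool.Agent.FS.TopFour.Core

namespace Pool.Agent.FS.TopFour

/-- Five absolute values with their shifts. -/
def T5 (A B C D E a b c d e : ℚ) (P s : ℚ) : Prop :=
  (P = A ∧ s = a) ∨ (P = B ∧ s = b) ∨ (P = C ∧ s = c) ∨ (P = D ∧ s = d) ∨ (P = E ∧ s = e)

theorem good5 {u A B C D E a b c d e : ℚ} (hu : 0 < u) (hA : 2 * u < A) (hAB : A ≤ B)
    (hBC : B ≤ C) (hCD : C ≤ D) (hDE : D ≤ E) (e1 : B - A ≤ u → a = b) (e2 : C - B ≤ u → b = c)
    (e3 : D - C ≤ u → c = d) (e4 : E - D ≤ u → d = e)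
    (f0 : A + A = B → a + a = b)
    (f1 : A + A = C → a + a = c)
    (f2 : A + B = C → a + b = c)
    (f3 : B + B = C → b + b = c)
    (f4 : A + A = D → a + a = d)
    (f5 : A + B = D → a + b = d)
    (f6 : B + B = D → b + b = d)
    (f7 : A + C = D → a + c = d)
    (f8 : B + C = D → b + c = d)
    (f9 : C + C = D → c + c = d)
    (f10 : A + A = E → a + a = e)
    (f11 : A + B = E → a + b = e)
    (f12 : B + B = E → b + b = e)
    (f13 : A + C = E → a + c = e)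
    (f14 : B + C = E → b + c = e)
    (f15 : C + C = E → c + c = e)
    (f16 : A + D = E → a + d = e)
    (f17 : B + D = E → b + d = e)
    (f18 : C + D = E → c + d = e)
    (f19 : D + D = E → d + d = e) :
    Good u (T5 A B C D E a b c d e) := by
  constructor
  · intro P s Q t hP hQ h1 h2
    rcases hP with ⟨p, p'⟩ | ⟨p, p'⟩ | ⟨p, p'⟩ | ⟨p, p'⟩ | ⟨p, p'⟩ <;>
    rcases hQ with ⟨q, q'⟩ | ⟨q, q'⟩ | ⟨q, q'⟩ | ⟨q, q'⟩ | ⟨q, q'⟩ <;>
    (try have g1 := e1 (by linarith)) <;> (try have g2 := e2 (by linarith)) <;>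
    (try have g3 := e3 (by linarith)) <;> (try have g4 := e4 (by linarith)) <;> linarith
  · intro P s Q t S v hP hQ hS h
    rcases hP with ⟨p, p'⟩ | ⟨p, p'⟩ | ⟨p, p'⟩ | ⟨p, p'⟩ | ⟨p, p'⟩ <;>
    rcases hQ with ⟨q, q'⟩ | ⟨q, q'⟩ | ⟨q, q'⟩ | ⟨q, q'⟩ | ⟨q, q'⟩ <;>
    rcases hS with ⟨r, r'⟩ | ⟨r, r'⟩ | ⟨r, r'⟩ | ⟨r, r'⟩ | ⟨r, r'⟩ <;>
    rw [p, q, r] at h <;> rw [p', q', r'] <;>
    first
      | (first | exact f0 h | exact f1 h | exact f2 h | exact f3 h | exact f4 h | exact f5 h | exact f6 h | exact f7 h | exact f8 h | exact f9 h | exact f10 h | exact f11 h | exact f12 h | exact f13 h | exact f14 h | exact f15 h | exact f16 h | exact f17 h | exact f18 h | exact f19 h)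
      | (exfalso; linarith)
      | (rw [add_comm] at h ⊢
         first | exact f0 h | exact f1 h | exact f2 h | exact f3 h | exact f4 h | exact f5 h | exact f6 h | exact f7 h | exact f8 h | exact f9 h | exact f10 h | exact f11 h | exact f12 h | exact f13 h | exact f14 h | exact f15 h | exact f16 h | exact f17 h | exact f18 h | exact f19 h)

end Pool.Agent.FS.TopFour
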