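import Mathlib

namespace Pool.Agent.FS.TopFour

/-- `d` is the shift attached to the signed value `p`. -/
def R (u : ℚ) (T : ℚ → ℚ → Prop) (p d : ℚ) : Prop :=
  (-u ≤ p ∧ p ≤ u ∧ d = 0) ∨ T p d ∨ T (-p) (-d)

/-- The shifts respect all relations between large absolute values. -/
def Good (u : ℚ) (T : ℚ → ℚ → Prop) : Prop :=
  (∀ P a Q b, T P a → T Q b → P - Q ≤ u → Q - P ≤ u → a = b) ∧
    (∀ P a Q b S c, T P a → T Q b → T S c → P + Q = S → a + b = c)

theorem signed {u : ℚ} (hu : 0 < u) {T : ℚ → ℚ → Prop} (h0 : ∀ P a, T P a → 2 * u < P)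
    (hg : Good u T) {p q r d e f : ℚ} (hp : R u T p d) (hq : R u T q e) (hr : R u T r f)
    (h : p + q = r) : d + e = f := by
  obtain ⟨h1, h2⟩ := hg
  rcases hp with ⟨p1, p2, p3⟩ | hp | hp <;> rcases hq with ⟨q1, q2, q3⟩ | hq | hq <;>
  rcases hr with ⟨r1, r2, r3⟩ | hr | hr <;>
  (try have p0 := h0 _ _ hp) <;> (try have q0 := h0 _ _ hq) <;> (try have r0 := h0 _ _ hr) <;>
  first
    | linarith
    | (have := h1 _ _ _ _ hp hq (by linarith) (by linarith); linarith)
    | (have := h1 _ _ _ _ hp hr (by linarith) (by linarith); linarith)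
    | (have := h1 _ _ _ _ hq hr (by linarith) (by linarith); linarith)
    | (have := h2 _ _ _ _ _ _ hp hq hr (by linarith); linarith)
    | (have := h2 _ _ _ _ _ _ hr hq hp (by linarith); linarith)
    | (have := h2 _ _ _ _ _ _ hp hr hq (by linarith); linarith)

/-- Four absolute values with their shifts. -/
def T4 (A B C D a b c d : ℚ) (P s : ℚ) : Prop :=
  (P = A ∧ s = a) ∨ (P = B ∧ s = b) ∨ (P = C ∧ s = c) ∨ (P = D ∧ s = d)

theorem good_of {u A B C D a b c d : ℚ} (hu : 0 < u) (hA : 2 * u < A) (hAB : A ≤ B) (hBC : B ≤ C)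
    (hCD : C ≤ D) (e1 : B - A ≤ u → a = b) (e2 : C - B ≤ u → b = c) (e3 : D - C ≤ u → c = d)
    (f1 : A + A = B → a + a = b) (f2 : A + A = C → a + a = c) (f3 : A + B = C → a + b = c)
    (f4 : B + B = C → b + b = c) (f5 : A + A = D → a + a = d) (f6 : A + B = D → a + b = d)
    (f7 : B + B = D → b + b = d) (f8 : A + C = D → a + c = d) (f9 : B + C = D → b + c = d)
    (f10 : C + C = D → c + c = d) : Good u (T4 A B C D a b c d) := by
  constructor
  · intro P s Q t hP hQ h1 h2
    rcases hP with ⟨p, p'⟩ | ⟨p, p'⟩ | ⟨p, p'⟩ | ⟨p, p'⟩ <;>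
    rcases hQ with ⟨q, q'⟩ | ⟨q, q'⟩ | ⟨q, q'⟩ | ⟨q, q'⟩ <;>
    (try have g1 := e1 (by linarith)) <;> (try have g2 := e2 (by linarith)) <;>
    (try have g3 := e3 (by linarith)) <;> linarith
  · intro P s Q t S v hP hQ hS h
    rcases hP with ⟨p, p'⟩ | ⟨p, p'⟩ | ⟨p, p'⟩ | ⟨p, p'⟩ <;>
    rcases hQ with ⟨q, q'⟩ | ⟨q, q'⟩ | ⟨q, q'⟩ | ⟨q, q'⟩ <;>
    rcases hS with ⟨r, r'⟩ | ⟨r, r'⟩ | ⟨r, r'⟩ | ⟨r, r'⟩ <;>
    first
      | (exfalso; linarith)
      | (have := f1 (by linarith); linarith)
      | (have := f2 (by linarith); linarith)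
      | (have := f3 (by linarith); linarith)
      | (have := f4 (by linarith); linarith)
      | (have := f5 (by linarith); linarith)
      | (have := f6 (by linarith); linarith)
      | (have := f7 (by linarith); linarith)
      | (have := f8 (by linarith); linarith)
      | (have := f9 (by linarith); linarith)
      | (have := f10 (by linarith); linarith)

theorem core {u A B C D : ℚ} (hu : 0 < u) (hA : 2 * u < A) (h3 : 3 * u < A ∨ C = D) (hAB : A ≤ B)
    (hBC : B ≤ C) (hCD : C ≤ D) :
    ∃ a b c d : ℚ, 0 < a ∧ 0 < b ∧ 0 < c ∧ 0 < d ∧ Good u (T4 A B C D a b c d) := by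
  rcases lt_or_ge u (B - A) with h1 | h1 <;> rcases lt_or_ge u (C - B) with h2 | h2 <;>
    rcases lt_or_ge u (D - C) with h4 | h4
  · refine ⟨A, B, C, D, by linarith, by linarith, by linarith, by linarith, ?_⟩
    apply good_of hu hA hAB hBC hCD <;> intro h <;> linarith
  · by_cases k1 : A + A = C ∨ A + A = D
    · refine ⟨A, B, A + A, A + A, by linarith, by linarith, by linarith, by linarith, ?_⟩
      rcases k1 with k1 | k1 <;> apply good_of hu hA hAB hBC hCD <;> intro h <;> linarith
    by_cases k2 : A + B = C ∨ A + B = D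
    · refine ⟨A, B, A + B, A + B, by linarith, by linarith, by linarith, by linarith, ?_⟩
      rcases k2 with k2 | k2 <;> apply good_of hu hA hAB hBC hCD <;> intro h <;> linarith
    · refine ⟨A, B, B + B, B + B, by linarith, by linarith, by linarith, by linarith, ?_⟩
      apply good_of hu hA hAB hBC hCD <;> intro h <;>
      first
        | linarith
        | exact absurd (Or.inl h) k1
        | exact absurd (Or.inr h) k1
        | exact absurd (Or.inl h) k2
        | exact absurd (Or.inr h) k2
  · by_cases k1 : A + A = D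
    · refine ⟨1, 1, 1, 2, by linarith, by linarith, by linarith, by linarith, ?_⟩
      apply good_of hu hA hAB hBC hCD <;> intro h <;> linarith
    by_cases k2 : A + B = D ∨ A + C = D
    · refine ⟨1, 2, 2, 3, by linarith, by linarith, by linarith, by linarith, ?_⟩
      rcases k2 with k2 | k2 <;> apply good_of hu hA hAB hBC hCD <;> intro h <;> linarith
    · refine ⟨1, 2, 2, 4, by linarith, by linarith, by linarith, by linarith, ?_⟩
      apply good_of hu hA hAB hBC hCD <;> intro h <;>
      first
        | linarith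
        | exact absurd h k1
        | exact absurd (Or.inl h) k2
        | exact absurd (Or.inr h) k2
  · refine ⟨1, 2, 2, 2, by linarith, by linarith, by linarith, by linarith, ?_⟩
    apply good_of hu hA hAB hBC hCD <;> intro h <;> linarith
  · by_cases k1 : C + C = D
    · refine ⟨1, 1, 2, 4, by linarith, by linarith, by linarith, by linarith, ?_⟩
      apply good_of hu hA hAB hBC hCD <;> intro h <;> linarith
    by_cases k2 : A + C = D ∨ B + C = D
    · refine ⟨1, 1, 2, 3, by linarith, by linarith, by linarith, by linarith, ?_⟩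
      rcases k2 with k2 | k2 <;> apply good_of hu hA hAB hBC hCD <;> intro h <;> linarith
    · refine ⟨1, 1, 2, 2, by linarith, by linarith, by linarith, by linarith, ?_⟩
      apply good_of hu hA hAB hBC hCD <;> intro h <;>
      first
        | linarith
        | exact absurd h k1
        | exact absurd (Or.inl h) k2
        | exact absurd (Or.inr h) k2
  · refine ⟨1, 1, 2, 2, by linarith, by linarith, by linarith, by linarith, ?_⟩
    apply good_of hu hA hAB hBC hCD <;> intro h <;> linarith
  · refine ⟨1, 1, 1, 2, by linarith, by linarith, by linarith, by linarith, ?_⟩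
    apply good_of hu hA hAB hBC hCD <;> intro h <;> linarith
  · refine ⟨1, 1, 1, 1, by linarith, by linarith, by linarith, by linarith, ?_⟩
    rcases h3 with h3 | h3 <;> apply good_of hu hA hAB hBC hCD <;> intro h <;> linarith

end Pool.Agent.FS.TopFour
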