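import Pool.Agent.FS.TopFour.Base5

set_option linter.unusedVariables false

namespace Pool.Agent.FS.TopFour

theorem c0100 {u A B C D E : ℚ} (hu : 0 < u) (hA : 4 * u < A) (hAB : A ≤ B) (hBC : B ≤ C)
    (hCD : C ≤ D) (hDE : D ≤ E)
    (g0 : u < B - A) (g1 : C - B ≤ u) (g2 : u < D - C) (g3 : u < E - D) :
    ∃ a b c d e : ℚ, 0 < a ∧ 0 < b ∧ 0 < c ∧ 0 < d ∧ 0 < e ∧ Good u (T5 A B C D E a b c d e) := by
  by_cases k10 : A + A = E
  · exact ⟨1, 1, 1, 1, 2, by norm_num, by norm_num, by norm_num, by norm_num, by norm_num, by
      apply good5 hu (by linarith) hAB hBC hCD hDE <;> intro h <;>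
      first | linarith⟩
  by_cases k11 : A + B = E
  · exact ⟨1, 2, 2, 2, 3, by norm_num, by norm_num, by norm_num, by norm_num, by norm_num, by
      apply good5 hu (by linarith) hAB hBC hCD hDE <;> intro h <;>
      first | linarith | exact absurd h k10⟩
  by_cases k13 : A + C = E
  · exact ⟨1, 2, 2, 2, 3, by norm_num, by norm_num, by norm_num, by norm_num, by norm_num, by
      apply good5 hu (by linarith) hAB hBC hCD hDE <;> intro h <;>
      first | linarith | exact absurd h k10 | exact absurd h k11⟩
  by_cases k4 : A + A = D
  · by_cases k19 : D + D = E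
    · exact ⟨1, 1, 1, 2, 4, by norm_num, by norm_num, by norm_num, by norm_num, by norm_num, by
        apply good5 hu (by linarith) hAB hBC hCD hDE <;> intro h <;>
        first | linarith | exact absurd h k10 | exact absurd h k11 | exact absurd h k13⟩
    by_cases k17 : B + D = E
    · exact ⟨1, 1, 1, 2, 3, by norm_num, by norm_num, by norm_num, by norm_num, by norm_num, by
        apply good5 hu (by linarith) hAB hBC hCD hDE <;> intro h <;>
        first | linarith | exact absurd h k10 | exact absurd h k11 | exact absurd h k13 | exact absurd h k19⟩
    by_cases k18 : C + D = E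
    · exact ⟨1, 1, 1, 2, 3, by norm_num, by norm_num, by norm_num, by norm_num, by norm_num, by
        apply good5 hu (by linarith) hAB hBC hCD hDE <;> intro h <;>
        first | linarith | exact absurd h k10 | exact absurd h k11 | exact absurd h k13 | exact absurd h k19 | exact absurd h k17⟩
    exact ⟨2, 3, 3, 4, 6, by norm_num, by norm_num, by norm_num, by norm_num, by norm_num, by
      apply good5 hu (by linarith) hAB hBC hCD hDE <;> intro h <;>
      first | linarith | exact absurd h k10 | exact absurd h k11 | exact absurd h k13 | exact absurd h k19 | exact absurd h k17 | exact absurd h k18⟩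
  by_cases k12 : B + B = E
  · exact ⟨1, 2, 2, 3, 4, by norm_num, by norm_num, by norm_num, by norm_num, by norm_num, by
      apply good5 hu (by linarith) hAB hBC hCD hDE <;> intro h <;>
      first | linarith | exact absurd h k10 | exact absurd h k11 | exact absurd h k13 | exact absurd h k4⟩
  by_cases k14 : B + C = E
  · exact ⟨1, 2, 2, 3, 4, by norm_num, by norm_num, by norm_num, by norm_num, by norm_num, by
      apply good5 hu (by linarith) hAB hBC hCD hDE <;> intro h <;>
      first | linarith | exact absurd h k10 | exact absurd h k11 | exact absurd h k13 | exact absurd h k4 | exact absurd h k12⟩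
  by_cases k15 : C + C = E
  · by_cases k6 : B + B = D
    · exact ⟨1, 2, 2, 4, 4, by norm_num, by norm_num, by norm_num, by norm_num, by norm_num, by
        apply good5 hu (by linarith) hAB hBC hCD hDE <;> intro h <;>
        first | linarith | exact absurd h k10 | exact absurd h k11 | exact absurd h k13 | exact absurd h k4 | exact absurd h k12 | exact absurd h k14⟩
    exact ⟨1, 2, 2, 3, 4, by norm_num, by norm_num, by norm_num, by norm_num, by norm_num, by
      apply good5 hu (by linarith) hAB hBC hCD hDE <;> intro h <;>
      first | linarith | exact absurd h k10 | exact absurd h k11 | exact absurd h k13 | exact absurd h k4 | exact absurd h k12 | exact absurd h k14 | exact absurd h k6⟩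
  by_cases k5 : A + B = D
  · by_cases k16 : A + D = E
    · exact ⟨1, 2, 2, 3, 4, by norm_num, by norm_num, by norm_num, by norm_num, by norm_num, by
        apply good5 hu (by linarith) hAB hBC hCD hDE <;> intro h <;>
        first | linarith | exact absurd h k10 | exact absurd h k11 | exact absurd h k13 | exact absurd h k4 | exact absurd h k12 | exact absurd h k14 | exact absurd h k15⟩
    by_cases k19 : D + D = E
    · exact ⟨1, 2, 2, 3, 6, by norm_num, by norm_num, by norm_num, by norm_num, by norm_num, by
        apply good5 hu (by linarith) hAB hBC hCD hDE <;> intro h <;>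
        first | linarith | exact absurd h k10 | exact absurd h k11 | exact absurd h k13 | exact absurd h k4 | exact absurd h k12 | exact absurd h k14 | exact absurd h k15 | exact absurd h k16⟩
    exact ⟨1, 2, 2, 3, 5, by norm_num, by norm_num, by norm_num, by norm_num, by norm_num, by
      apply good5 hu (by linarith) hAB hBC hCD hDE <;> intro h <;>
      first | linarith | exact absurd h k10 | exact absurd h k11 | exact absurd h k13 | exact absurd h k4 | exact absurd h k12 | exact absurd h k14 | exact absurd h k15 | exact absurd h k16 | exact absurd h k19⟩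
  by_cases k7 : A + C = D
  · by_cases k16 : A + D = E
    · exact ⟨1, 2, 2, 3, 4, by norm_num, by norm_num, by norm_num, by norm_num, by norm_num, by
        apply good5 hu (by linarith) hAB hBC hCD hDE <;> intro h <;>
        first | linarith | exact absurd h k10 | exact absurd h k11 | exact absurd h k13 | exact absurd h k4 | exact absurd h k12 | exact absurd h k14 | exact absurd h k15 | exact absurd h k5⟩
    by_cases k19 : D + D = E
    · exact ⟨1, 2, 2, 3, 6, by norm_num, by norm_num, by norm_num, by norm_num, by norm_num, by
        apply good5 hu (by linarith) hAB hBC hCD hDE <;> intro h <;>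
        first | linarith | exact absurd h k10 | exact absurd h k11 | exact absurd h k13 | exact absurd h k4 | exact absurd h k12 | exact absurd h k14 | exact absurd h k15 | exact absurd h k5 | exact absurd h k16⟩
    exact ⟨1, 2, 2, 3, 5, by norm_num, by norm_num, by norm_num, by norm_num, by norm_num, by
      apply good5 hu (by linarith) hAB hBC hCD hDE <;> intro h <;>
      first | linarith | exact absurd h k10 | exact absurd h k11 | exact absurd h k13 | exact absurd h k4 | exact absurd h k12 | exact absurd h k14 | exact absurd h k15 | exact absurd h k5 | exact absurd h k16 | exact absurd h k19⟩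
  by_cases k16 : A + D = E
  · exact ⟨1, 2, 2, 4, 5, by norm_num, by norm_num, by norm_num, by norm_num, by norm_num, by
      apply good5 hu (by linarith) hAB hBC hCD hDE <;> intro h <;>
      first | linarith | exact absurd h k10 | exact absurd h k11 | exact absurd h k13 | exact absurd h k4 | exact absurd h k12 | exact absurd h k14 | exact absurd h k15 | exact absurd h k5 | exact absurd h k7⟩
  by_cases k19 : D + D = E
  · exact ⟨1, 2, 2, 4, 8, by norm_num, by norm_num, by norm_num, by norm_num, by norm_num, by
      apply good5 hu (by linarith) hAB hBC hCD hDE <;> intro h <;>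
      first | linarith | exact absurd h k10 | exact absurd h k11 | exact absurd h k13 | exact absurd h k4 | exact absurd h k12 | exact absurd h k14 | exact absurd h k15 | exact absurd h k5 | exact absurd h k7 | exact absurd h k16⟩
  exact ⟨1, 2, 2, 4, 6, by norm_num, by norm_num, by norm_num, by norm_num, by norm_num, by
    apply good5 hu (by linarith) hAB hBC hCD hDE <;> intro h <;>
    first | linarith | exact absurd h k10 | exact absurd h k11 | exact absurd h k13 | exact absurd h k4 | exact absurd h k12 | exact absurd h k14 | exact absurd h k15 | exact absurd h k5 | exact absurd h k7 | exact absurd h k16 | exact absurd h k19⟩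

theorem c1100 {u A B C D E : ℚ} (hu : 0 < u) (hA : 4 * u < A) (hAB : A ≤ B) (hBC : B ≤ C)
    (hCD : C ≤ D) (hDE : D ≤ E)
    (g0 : B - A ≤ u) (g1 : C - B ≤ u) (g2 : u < D - C) (g3 : u < E - D) :
    ∃ a b c d e : ℚ, 0 < a ∧ 0 < b ∧ 0 < c ∧ 0 < d ∧ 0 < e ∧ Good u (T5 A B C D E a b c d e) := by
  by_cases k10 : A + A = E
  · exact ⟨1, 1, 1, 1, 2, by norm_num, by norm_num, by norm_num, by norm_num, by norm_num, by
      apply good5 hu (by linarith) hAB hBC hCD hDE <;> intro h <;>
      first | linarith⟩
  by_cases k11 : A + B = E
  · exact ⟨1, 1, 1, 1, 2, by norm_num, by norm_num, by norm_num, by norm_num, by norm_num, by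
      apply good5 hu (by linarith) hAB hBC hCD hDE <;> intro h <;>
      first | linarith | exact absurd h k10⟩
  by_cases k12 : B + B = E
  · exact ⟨1, 1, 1, 2, 2, by norm_num, by norm_num, by norm_num, by norm_num, by norm_num, by
      apply good5 hu (by linarith) hAB hBC hCD hDE <;> intro h <;>
      first | linarith | exact absurd h k10 | exact absurd h k11⟩
  by_cases k13 : A + C = E
  · exact ⟨1, 1, 1, 2, 2, by norm_num, by norm_num, by norm_num, by norm_num, by norm_num, by
      apply good5 hu (by linarith) hAB hBC hCD hDE <;> intro h <;>
      first | linarith | exact absurd h k10 | exact absurd h k11 | exact absurd h k12⟩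
  by_cases k14 : B + C = E
  · exact ⟨1, 1, 1, 2, 2, by norm_num, by norm_num, by norm_num, by norm_num, by norm_num, by
      apply good5 hu (by linarith) hAB hBC hCD hDE <;> intro h <;>
      first | linarith | exact absurd h k10 | exact absurd h k11 | exact absurd h k12 | exact absurd h k13⟩
  by_cases k15 : C + C = E
  · by_cases k16 : A + D = E
    · exact ⟨1, 1, 1, 1, 2, by norm_num, by norm_num, by norm_num, by norm_num, by norm_num, by
        apply good5 hu (by linarith) hAB hBC hCD hDE <;> intro h <;>
        first | linarith | exact absurd h k10 | exact absurd h k11 | exact absurd h k12 | exact absurd h k13 | exact absurd h k14⟩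
    exact ⟨1, 1, 1, 2, 2, by norm_num, by norm_num, by norm_num, by norm_num, by norm_num, by
      apply good5 hu (by linarith) hAB hBC hCD hDE <;> intro h <;>
      first | linarith | exact absurd h k10 | exact absurd h k11 | exact absurd h k12 | exact absurd h k13 | exact absurd h k14 | exact absurd h k16⟩
  by_cases k19 : D + D = E
  · exact ⟨1, 1, 1, 2, 4, by norm_num, by norm_num, by norm_num, by norm_num, by norm_num, by
      apply good5 hu (by linarith) hAB hBC hCD hDE <;> intro h <;>
      first | linarith | exact absurd h k10 | exact absurd h k11 | exact absurd h k12 | exact absurd h k13 | exact absurd h k14 | exact absurd h k15⟩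
  exact ⟨1, 1, 1, 2, 3, by norm_num, by norm_num, by norm_num, by norm_num, by norm_num, by
    apply good5 hu (by linarith) hAB hBC hCD hDE <;> intro h <;>
    first | linarith | exact absurd h k10 | exact absurd h k11 | exact absurd h k12 | exact absurd h k13 | exact absurd h k14 | exact absurd h k15 | exact absurd h k19⟩

theorem c1010 {u A B C D E : ℚ} (hu : 0 < u) (hA : 4 * u < A) (hAB : A ≤ B) (hBC : B ≤ C)
    (hCD : C ≤ D) (hDE : D ≤ E)
    (g0 : B - A ≤ u) (g1 : u < C - B) (g2 : D - C ≤ u) (g3 : u < E - D) :
    ∃ a b c d e : ℚ, 0 < a ∧ 0 < b ∧ 0 < c ∧ 0 < d ∧ 0 < e ∧ Good u (T5 A B C D E a b c d e) := by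
  by_cases k10 : A + A = E
  · exact ⟨1, 1, 1, 1, 2, by norm_num, by norm_num, by norm_num, by norm_num, by norm_num, by
      apply good5 hu (by linarith) hAB hBC hCD hDE <;> intro h <;>
      first | linarith⟩
  by_cases k11 : A + B = E
  · exact ⟨1, 1, 1, 1, 2, by norm_num, by norm_num, by norm_num, by norm_num, by norm_num, by
      apply good5 hu (by linarith) hAB hBC hCD hDE <;> intro h <;>
      first | linarith | exact absurd h k10⟩
  by_cases k12 : B + B = E
  · exact ⟨1, 1, 2, 2, 2, by norm_num, by norm_num, by norm_num, by norm_num, by norm_num, by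
      apply good5 hu (by linarith) hAB hBC hCD hDE <;> intro h <;>
      first | linarith | exact absurd h k10 | exact absurd h k11⟩
  by_cases k15 : C + C = E
  · exact ⟨1, 1, 2, 2, 4, by norm_num, by norm_num, by norm_num, by norm_num, by norm_num, by
      apply good5 hu (by linarith) hAB hBC hCD hDE <;> intro h <;>
      first | linarith | exact absurd h k10 | exact absurd h k11 | exact absurd h k12⟩
  by_cases k18 : C + D = E
  · exact ⟨1, 1, 2, 2, 4, by norm_num, by norm_num, by norm_num, by norm_num, by norm_num, by
      apply good5 hu (by linarith) hAB hBC hCD hDE <;> intro h <;>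
      first | linarith | exact absurd h k10 | exact absurd h k11 | exact absurd h k12 | exact absurd h k15⟩
  by_cases k19 : D + D = E
  · exact ⟨1, 1, 2, 2, 4, by norm_num, by norm_num, by norm_num, by norm_num, by norm_num, by
      apply good5 hu (by linarith) hAB hBC hCD hDE <;> intro h <;>
      first | linarith | exact absurd h k10 | exact absurd h k11 | exact absurd h k12 | exact absurd h k15 | exact absurd h k18⟩
  exact ⟨1, 1, 2, 2, 3, by norm_num, by norm_num, by norm_num, by norm_num, by norm_num, by
    apply good5 hu (by linarith) hAB hBC hCD hDE <;> intro h <;>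
    first | linarith | exact absurd h k10 | exact absurd h k11 | exact absurd h k12 | exact absurd h k15 | exact absurd h k18 | exact absurd h k19⟩

end Pool.Agent.FS.TopFour
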