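import Pool.Agent.FS.TopFour.Core

namespace Pool.Agent.FS.TopFour

theorem not_rigid {n : ℕ} (x : Fin n → ℚ) {u : ℚ} (hu : 1 ≤ u) {T : ℚ → ℚ → Prop}
    (h0 : ∀ P a, T P a → 2 * u < P) (hp : ∀ P a, T P a → 0 < a) (hg : Good u T)
    (hc : ∀ j, |x j| ≤ u ∨ ∃ a, T |x j| a) (k : Fin n) (hk : u < |x k|)
    (hr : ∀ y : Fin n → ℚ, (∀ j, x j = 1 → y j = 1) →
      (∀ j k l, x j + x k = x l → y j + y k = y l) → y = x) : False := by
  have hex : ∀ j, ∃ d, R u T (x j) d := by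
    intro j
    rcases hc j with h | ⟨a, h⟩
    · exact ⟨0, Or.inl ⟨(abs_le.mp h).1, (abs_le.mp h).2, rfl⟩⟩
    · rcases le_total 0 (x j) with h1 | h1
      · exact ⟨a, Or.inr (Or.inl (by rwa [abs_of_nonneg h1] at h))⟩
      · exact ⟨-a, Or.inr (Or.inr (by rw [neg_neg]; rwa [abs_of_nonpos h1] at h))⟩
  choose d hd using hex
  have hy := hr (fun j => x j + d j)
    (fun j hj => by
      have h := hd j
      rw [hj] at h
      rcases h with ⟨-, -, h⟩ | h | h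
      · rw [hj, h, add_zero]
      · have := h0 _ _ h; exfalso; linarith
      · have := h0 _ _ h; exfalso; linarith)
    (fun j k l h => by
      have := signed (by linarith) h0 hg (hd j) (hd k) (hd l) h
      linarith)
  have hz : d k = 0 := by
    have := congrFun hy k
    simpa using this
  have h := hd k
  rw [hz] at h
  rcases h with ⟨h1, h2, -⟩ | h | h
  · exact absurd (abs_le.mpr ⟨h1, h2⟩) (not_le.mpr hk)
  · exact absurd (hp _ _ h) (lt_irrefl _)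
  · have := hp _ _ h
    linarith

theorem pos {n i : ℕ} (hi : i + 1 < n) (hn : n ≤ i + 5) (x : Fin n → ℚ)
    (hr : ∀ y : Fin n → ℚ, (∀ j, x j = 1 → y j = 1) →
      (∀ j k l, x j + x k = x l → y j + y k = y l) → y = x)
    (hs : ∀ j k, j ≤ k → |x j| ≤ |x k|) (h1 : 1 ≤ |x ⟨i, by omega⟩|)
    (hA : 2 * |x ⟨i, by omega⟩| < |x ⟨i + 1, hi⟩|)
    (h3 : 3 * |x ⟨i, by omega⟩| < |x ⟨i + 1, hi⟩| ∨ n ≤ i + 4) : False := by
  have hAB : |x ⟨i + 1, hi⟩| ≤ |x ⟨min (i + 2) (n - 1), by omega⟩| :=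
    hs _ _ (by simp only [Fin.mk_le_mk]; omega)
  have hBC : |x ⟨min (i + 2) (n - 1), by omega⟩| ≤ |x ⟨min (i + 3) (n - 1), by omega⟩| :=
    hs _ _ (by simp only [Fin.mk_le_mk]; omega)
  have hCD : |x ⟨min (i + 3) (n - 1), by omega⟩| ≤ |x ⟨n - 1, by omega⟩| :=
    hs _ _ (by simp only [Fin.mk_le_mk]; omega)
  obtain ⟨a, b, c, d, ha, hb, hc, hd, H⟩ := core (lt_of_lt_of_le one_pos h1) hA
    (h3.imp_right fun h => congrArg (fun t => |x t|) (Fin.ext (by simp only; omega))) hAB hBC hCD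
  refine not_rigid x h1 ?_ ?_ H ?_ ⟨i + 1, hi⟩ (by linarith) hr
  · rintro P s (⟨h, -⟩ | ⟨h, -⟩ | ⟨h, -⟩ | ⟨h, -⟩) <;> linarith
  · rintro P s (⟨-, h⟩ | ⟨-, h⟩ | ⟨-, h⟩ | ⟨-, h⟩) <;> linarith
  · intro j
    have hj := j.isLt
    rcases (by omega : j.val ≤ i ∨ j.val = i + 1 ∨ j.val = min (i + 2) (n - 1) ∨
      j.val = min (i + 3) (n - 1) ∨ j.val = n - 1) with h | h | h | h | h
    · exact Or.inl (hs _ _ (Fin.le_def.mpr h))
    · exact Or.inr ⟨a, Or.inl ⟨congrArg (fun t => |x t|) (Fin.ext h), rfl⟩⟩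
    · exact Or.inr ⟨b, Or.inr (Or.inl ⟨congrArg (fun t => |x t|) (Fin.ext h), rfl⟩)⟩
    · exact Or.inr ⟨c, Or.inr (Or.inr (Or.inl ⟨congrArg (fun t => |x t|) (Fin.ext h), rfl⟩))⟩
    · exact Or.inr ⟨d, Or.inr (Or.inr (Or.inr ⟨congrArg (fun t => |x t|) (Fin.ext h), rfl⟩))⟩

/-- The tuple `1, …, 1, k, k + 1, …, 2 k, …, 2 k` as a function of the index. -/
def w (k i j : ℕ) : ℕ := if j ≤ i then 1 else min (k + (j - i - 1)) (2 * k)

theorem w_mono {k i j l : ℕ} (hk : 1 ≤ k) (h : j ≤ l) : |(w k i j : ℚ)| ≤ |(w k i l : ℚ)| := by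
  rw [Nat.abs_cast, Nat.abs_cast, Nat.cast_le]
  unfold w
  split_ifs <;> omega

theorem w_rigid {k n i : ℕ} (hn : i + k + 1 < n) (y : Fin n → ℚ)
    (h1 : ∀ j : Fin n, (w k i j : ℚ) = 1 → y j = 1)
    (h2 : ∀ j l m : Fin n, (w k i j : ℚ) + w k i l = w k i m → y j + y l = y m) :
    y = fun j : Fin n => (w k i j : ℚ) := by
  have h2' : ∀ j l m : Fin n, w k i j + w k i l = w k i m → y j + y l = y m :=
    fun j l m h => h2 j l m (by exact_mod_cast h)
  have e0 : y ⟨i, by omega⟩ = 1 := h1 _ (by simp [w])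
  have e1 : ∀ t : ℕ, ∀ ht : t ≤ k, y ⟨i + 1 + t, by omega⟩ = y ⟨i + 1, by omega⟩ + t := by
    intro t
    induction t with
    | zero => intro _; simp
    | succ t ih =>
      intro ht
      have := h2' ⟨i + 1 + t, by omega⟩ ⟨i, by omega⟩ ⟨i + 1 + (t + 1), by omega⟩
        (by simp only [w]; split_ifs <;> omega)
      rw [← this, ih (by omega), e0]
      push_cast
      ring
  have e2 : ∀ j : Fin n, i + 1 + k ≤ j.val → y ⟨i + 1, by omega⟩ + y ⟨i + 1, by omega⟩ = y j :=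
    fun j hj => h2' _ _ j (by simp only [w]; split_ifs <;> omega)
  have e3 : y ⟨i + 1, by omega⟩ = k := by
    have a := e1 k le_rfl
    have b := e2 ⟨i + 1 + k, by omega⟩ le_rfl
    linarith
  funext j
  rcases (by omega : j.val ≤ i ∨ (i + 1 ≤ j.val ∧ j.val ≤ i + 1 + k) ∨ i + 1 + k ≤ j.val)
    with h | h | h
  · have : (w k i j : ℚ) = 1 := by simp [w, h]
    rw [this]; exact h1 j this
  · have a := e1 (j.val - (i + 1)) (by omega)
    have b : j = ⟨i + 1 + (j.val - (i + 1)), by omega⟩ := Fin.ext (by simp only; omega)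
    have c : w k i j = k + (j.val - (i + 1)) := by simp only [w]; split_ifs <;> omega
    rw [c, b, a, e3]
    simp
  · have c : w k i j = 2 * k := by simp only [w]; split_ifs <;> omega
    rw [c, ← e2 j h, e3]
    push_cast
    ring

theorem neg {k n i : ℕ} (hk : 1 ≤ k) (hn : i + k + 1 < n) {c : ℚ}
    (h : ∀ x : Fin n → ℚ, (∀ y : Fin n → ℚ, (∀ a, x a = 1 → y a = 1) →
        (∀ a b c, x a + x b = x c → y a + y b = y c) → y = x) →
      (∀ a b, a ≤ b → |x a| ≤ |x b|) → 1 ≤ |x ⟨i, by omega⟩| →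
        |x ⟨i + 1, by omega⟩| ≤ c * |x ⟨i, by omega⟩|) : (k : ℚ) ≤ c := by
  have a : w k i i = 1 := by simp [w]
  have b : w k i (i + 1) = k := by simp only [w]; split_ifs <;> omega
  have := h (fun t : Fin n => (w k i t : ℚ)) (fun y h1 h2 => w_rigid hn y h1 h2)
    (fun a b hab => w_mono hk (Fin.le_def.mp hab)) (by simp [a])
  simpa [a, b] using this

end Pool.Agent.FS.TopFour
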