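import Pool.Agent.FS.TopFour.Main
import Pool.Agent.FS.TopFour.Five1
import Pool.Agent.FS.TopFour.Five2
import Pool.Agent.FS.TopFour.Five3
import Pool.Agent.FS.TopFour.Five4

namespace Pool.Agent.FS.TopFour

theorem core5 {u A B C D E : ℚ} (hu : 0 < u) (hA : 4 * u < A) (hAB : A ≤ B) (hBC : B ≤ C)
    (hCD : C ≤ D) (hDE : D ≤ E) :
    ∃ a b c d e : ℚ, 0 < a ∧ 0 < b ∧ 0 < c ∧ 0 < d ∧ 0 < e ∧ Good u (T5 A B C D E a b c d e) := by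
  rcases lt_or_ge u (B - A) with g0 | g0 <;> rcases lt_or_ge u (C - B) with g1 | g1 <;>
    rcases lt_or_ge u (D - C) with g2 | g2 <;> rcases lt_or_ge u (E - D) with g3 | g3
  · exact c0000 hu hA hAB hBC hCD hDE g0 g1 g2 g3
  · exact c0001 hu hA hAB hBC hCD hDE g0 g1 g2 g3
  · exact c0010 hu hA hAB hBC hCD hDE g0 g1 g2 g3
  · exact c0011 hu hA hAB hBC hCD hDE g0 g1 g2 g3
  · exact c0100 hu hA hAB hBC hCD hDE g0 g1 g2 g3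
  · exact c0101 hu hA hAB hBC hCD hDE g0 g1 g2 g3
  · exact c0110 hu hA hAB hBC hCD hDE g0 g1 g2 g3
  · exact c0111 hu hA hAB hBC hCD hDE g0 g1 g2 g3
  · exact c1000 hu hA hAB hBC hCD hDE g0 g1 g2 g3
  · exact c1001 hu hA hAB hBC hCD hDE g0 g1 g2 g3
  · exact c1010 hu hA hAB hBC hCD hDE g0 g1 g2 g3
  · exact c1011 hu hA hAB hBC hCD hDE g0 g1 g2 g3
  · exact c1100 hu hA hAB hBC hCD hDE g0 g1 g2 g3
  · exact c1101 hu hA hAB hBC hCD hDE g0 g1 g2 g3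
  · exact c1110 hu hA hAB hBC hCD hDE g0 g1 g2 g3
  · exact c1111 hu hA hAB hBC hCD hDE g0 g1 g2 g3

theorem pos5 {n i : ℕ} (hn : n = i + 6) (x : Fin n → ℚ)
    (hr : ∀ y : Fin n → ℚ, (∀ j, x j = 1 → y j = 1) →
      (∀ j k l, x j + x k = x l → y j + y k = y l) → y = x)
    (hs : ∀ j k, j ≤ k → |x j| ≤ |x k|) (h1 : 1 ≤ |x ⟨i, by omega⟩|)
    (hA : 4 * |x ⟨i, by omega⟩| < |x ⟨i + 1, by omega⟩|) : False := by
  have hAB : |x ⟨i + 1, by omega⟩| ≤ |x ⟨i + 2, by omega⟩| :=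
    hs _ _ (by simp only [Fin.mk_le_mk]; omega)
  have hBC : |x ⟨i + 2, by omega⟩| ≤ |x ⟨i + 3, by omega⟩| :=
    hs _ _ (by simp only [Fin.mk_le_mk]; omega)
  have hCD : |x ⟨i + 3, by omega⟩| ≤ |x ⟨i + 4, by omega⟩| :=
    hs _ _ (by simp only [Fin.mk_le_mk]; omega)
  have hDE : |x ⟨i + 4, by omega⟩| ≤ |x ⟨i + 5, by omega⟩| :=
    hs _ _ (by simp only [Fin.mk_le_mk]; omega)
  obtain ⟨a, b, c, d, e, ha, hb, hc, hd, he, H⟩ :=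
    core5 (lt_of_lt_of_le one_pos h1) hA hAB hBC hCD hDE
  refine not_rigid x h1 ?_ ?_ H ?_ ⟨i + 1, by omega⟩ (by linarith) hr
  · rintro P s (⟨h, -⟩ | ⟨h, -⟩ | ⟨h, -⟩ | ⟨h, -⟩ | ⟨h, -⟩) <;> linarith
  · rintro P s (⟨-, h⟩ | ⟨-, h⟩ | ⟨-, h⟩ | ⟨-, h⟩ | ⟨-, h⟩) <;> linarith
  · intro j
    have hj := j.isLt
    rcases (by omega : j.val ≤ i ∨ j.val = i + 1 ∨ j.val = i + 2 ∨ j.val = i + 3 ∨
      j.val = i + 4 ∨ j.val = i + 5) with h | h | h | h | h | h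
    · exact Or.inl (hs _ _ (Fin.le_def.mpr h))
    · exact Or.inr ⟨a, Or.inl ⟨congrArg (fun t => |x t|) (Fin.ext h), rfl⟩⟩
    · exact Or.inr ⟨b, Or.inr (Or.inl ⟨congrArg (fun t => |x t|) (Fin.ext h), rfl⟩)⟩
    · exact Or.inr ⟨c, Or.inr (Or.inr (Or.inl ⟨congrArg (fun t => |x t|) (Fin.ext h), rfl⟩))⟩
    · exact Or.inr ⟨d, Or.inr (Or.inr (Or.inr (Or.inl
        ⟨congrArg (fun t => |x t|) (Fin.ext h), rfl⟩)))⟩
    · exact Or.inr ⟨e, Or.inr (Or.inr (Or.inr (Or.inr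
        ⟨congrArg (fun t => |x t|) (Fin.ext h), rfl⟩)))⟩

end Pool.Agent.FS.TopFour
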