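import Mathlib

namespace Pool.Agent.FS.TopFour

/-- The tuple `1, …, 1, 6, 7, 8, 12, 16, 24, …, 24` as a function of the index. -/
def v6 (i j : ℕ) : ℕ :=
  if j ≤ i then 1 else if j = i + 1 then 6 else if j = i + 2 then 7 else if j = i + 3 then 8
  else if j = i + 4 then 12 else if j = i + 5 then 16 else 24

theorem v6_mono {i j l : ℕ} (h : j ≤ l) : |(v6 i j : ℚ)| ≤ |(v6 i l : ℚ)| := by
  rw [Nat.abs_cast, Nat.abs_cast, Nat.cast_le]
  unfold v6
  split_ifs <;> omega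

theorem v6_rigid {n i : ℕ} (hn : i + 6 < n) (y : Fin n → ℚ)
    (h1 : ∀ j : Fin n, (v6 i j : ℚ) = 1 → y j = 1)
    (h2 : ∀ j l m : Fin n, (v6 i j : ℚ) + v6 i l = v6 i m → y j + y l = y m) :
    y = fun j : Fin n => (v6 i j : ℚ) := by
  have h2' : ∀ j l m : Fin n, v6 i j + v6 i l = v6 i m → y j + y l = y m :=
    fun j l m h => h2 j l m (by exact_mod_cast h)
  have e0 : y ⟨i, by omega⟩ = 1 := h1 _ (by simp [v6])
  have e1 := h2' ⟨i + 1, by omega⟩ ⟨i, by omega⟩ ⟨i + 2, by omega⟩ (by simp [v6])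
  have e2 := h2' ⟨i + 2, by omega⟩ ⟨i, by omega⟩ ⟨i + 3, by omega⟩ (by simp [v6])
  have e3 := h2' ⟨i + 1, by omega⟩ ⟨i + 1, by omega⟩ ⟨i + 4, by omega⟩ (by simp [v6])
  have e4 := h2' ⟨i + 3, by omega⟩ ⟨i + 3, by omega⟩ ⟨i + 5, by omega⟩ (by simp [v6])
  have e5 := h2' ⟨i + 3, by omega⟩ ⟨i + 5, by omega⟩ ⟨i + 6, by omega⟩ (by simp [v6])
  have e6 : ∀ j : Fin n, i + 6 ≤ j.val → y ⟨i + 4, by omega⟩ + y ⟨i + 4, by omega⟩ = y j :=
    fun j hj => h2' _ _ j (by simp only [v6]; split_ifs <;> omega)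
  have e7 := e6 ⟨i + 6, by omega⟩ le_rfl
  funext j
  rcases (by omega : j.val ≤ i ∨ j.val = i + 1 ∨ j.val = i + 2 ∨ j.val = i + 3 ∨ j.val = i + 4 ∨
    j.val = i + 5 ∨ i + 6 ≤ j.val) with h | h | h | h | h | h | h
  · have : (v6 i j : ℚ) = 1 := by simp [v6, h]
    rw [this]; exact h1 j this
  · have b : j = ⟨i + 1, by omega⟩ := Fin.ext h
    have c : v6 i j = 6 := by simp [v6, h]
    rw [c, b]; push_cast; linarith
  · have b : j = ⟨i + 2, by omega⟩ := Fin.ext h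
    have c : v6 i j = 7 := by simp [v6, h]
    rw [c, b]; push_cast; linarith
  · have b : j = ⟨i + 3, by omega⟩ := Fin.ext h
    have c : v6 i j = 8 := by simp [v6, h]
    rw [c, b]; push_cast; linarith
  · have b : j = ⟨i + 4, by omega⟩ := Fin.ext h
    have c : v6 i j = 12 := by simp [v6, h]
    rw [c, b]; push_cast; linarith
  · have b : j = ⟨i + 5, by omega⟩ := Fin.ext h
    have c : v6 i j = 16 := by simp [v6, h]
    rw [c, b]; push_cast; linarith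
  · have c : v6 i j = 24 := by simp only [v6]; split_ifs <;> omega
    have := e6 j h
    rw [c]; push_cast; linarith

theorem neg6 {n i : ℕ} (hn : i + 6 < n) {c : ℚ}
    (h : ∀ x : Fin n → ℚ, (∀ y : Fin n → ℚ, (∀ a, x a = 1 → y a = 1) →
        (∀ a b c, x a + x b = x c → y a + y b = y c) → y = x) →
      (∀ a b, a ≤ b → |x a| ≤ |x b|) → 1 ≤ |x ⟨i, by omega⟩| →
        |x ⟨i + 1, by omega⟩| ≤ c * |x ⟨i, by omega⟩|) : 6 ≤ c := by
  have a : v6 i i = 1 := by simp [v6]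
  have b : v6 i (i + 1) = 6 := by simp [v6]
  have := h (fun t : Fin n => (v6 i t : ℚ)) (fun y h1 h2 => v6_rigid hn y h1 h2)
    (fun a b hab => v6_mono (Fin.le_def.mp hab)) (by simp [a])
  simpa [a, b] using this

end Pool.Agent.FS.TopFour
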